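import Pool.Agent.MP_05b4bd_ag.Defs

namespace Pool.Agent.MP_05b4bd_ag

open MvPolynomial

/-- Forms `(u A + a v ^ 3) dv + (v B + b u ^ 3) du` with `deg u, deg v ≤ 1`, `deg A, deg B ≤ 2`:
both lines `u = 0`, `v = 0` have triple contact with the foliation at their common point. -/
def FL : Set Form :=
  {ω | ∃ (a b : ℂ) (u v A B : Poly), u.totalDegree ≤ 1 ∧ v.totalDegree ≤ 1 ∧ A.totalDegree ≤ 2 ∧
    B.totalDegree ≤ 2 ∧ ω = (u * A + C a * v ^ 3) • dform v + (v * B + C b * u ^ 3) • dform u}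

end Pool.Agent.MP_05b4bd_ag
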