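import Pool.Agent.MP_05b4bd_ag.wd.Spec

/-! A component of the closure of `S` contains a nonempty principal open part of `S`. -/

namespace Pool.Agent.MP_05b4bd_ag.WD

open MvPolynomial HC
open PC3 (Fm fm d1 DF sub2 pb)

namespace Den

theorem fin_min {d : ℕ} {J : Ideal Co} (hJ : ∀ b m, d < m.degree → X (b, m) ∈ J) :
    J.minimalPrimes.Finite := by
  let θ := (Ideal.Quotient.mkₐ ℂ J).comp (rename (fun k : Bool × Mo0 d => (k.1, k.2.1)))
  have hs : Function.Surjective θ := fun x => by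
    obtain ⟨R, rfl⟩ := Ideal.Quotient.mkₐ_surjective ℂ J x
    change _ ∈ θ.range
    induction R using MvPolynomial.induction_on with
    | C a => exact ⟨C a, by simp [θ]⟩
    | add p q hp hq => rw [map_add]; exact add_mem hp hq
    | mul_X p k hp =>
      rw [map_mul]
      refine mul_mem hp ?_
      rcases k with ⟨b, m⟩
      by_cases h : m.degree ≤ d
      · exact ⟨X (b, ⟨m, h⟩), by simp [θ]⟩
      · rw [Ideal.Quotient.mkₐ_eq_mk, Ideal.Quotient.eq_zero_iff_mem.2 (hJ b m (by omega))]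
        exact zero_mem _
  have := isNoetherianRing_of_surjective _ _ θ.toRingHom hs
  rw [Ideal.minimalPrimes_eq_comap]
  exact (minimalPrimes.finite_of_isNoetherianRing _).image _

end Den

theorem denS : DenStmt := fun d S Z hS hZ => by
  refine ⟨hZ.2 ⟨zcl_subset hZ.1.1, hZ.1.2.zcl⟩ (subset_zcl Z), ?_⟩
  have hF : (vanishingIdeal ℂ (Pool.Agent.MP_05b4bd_ag.co '' S)).minimalPrimes.Finite :=
    Den.fin_min (d := d) fun b m hm => mem_van.2 fun η hη => by
      rw [ev_X]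
      cases b
      · exact totalDegree_le_iff.1 (hS hη).2 m hm
      · exact totalDegree_le_iff.1 (hS hη).1 m hm
  have hp : (vanishingIdeal ℂ (Pool.Agent.MP_05b4bd_ag.co '' Z)).IsPrime := hZ.1.2
  have hle : vanishingIdeal ℂ (Pool.Agent.MP_05b4bd_ag.co '' S) ≤
      vanishingIdeal ℂ (Pool.Agent.MP_05b4bd_ag.co '' Z) := fun R hR =>
    mem_van.2 fun η hη => mem_zcl.1 (hZ.1.1 hη) R (mem_van.1 hR)
  obtain ⟨q, hq, hqp⟩ := Ideal.exists_minimalPrimes_le hle
  obtain ⟨y, hy, h⟩ := avoid hF hq.1.1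
  let T : Set Form := {η | η ∈ S ∧ Pool.Agent.MP_05b4bd_ag.ev y η ≠ 0}
  have e : vanishingIdeal ℂ (Pool.Agent.MP_05b4bd_ag.co '' T) = q := by
    refine le_antisymm (fun s hs => ?_) fun t ht => mem_van.2 fun η hη => ?_
    · refine (hq.1.1.mem_or_mem (hq.1.2 (mem_van.2 fun η hη => ?_ : y * s ∈ _))).resolve_left hy
      rw [ev_mul]
      by_cases h0 : Pool.Agent.MP_05b4bd_ag.ev y η = 0
      · rw [h0, zero_mul]
      · rw [mem_van.1 hs η ⟨hη, h0⟩, mul_zero]
    · obtain ⟨n, hn⟩ : y * t ∈ (vanishingIdeal ℂ (Pool.Agent.MP_05b4bd_ag.co '' S)).radical := by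
        rw [← Ideal.sInf_minimalPrimes, Ideal.mem_sInf]
        intro I hI
        by_cases e : I ≤ q
        · exact Ideal.mul_mem_left _ _ (hq.2 hI.1 e ht)
        · exact Ideal.mul_mem_right _ _ (h I hI e)
      have := mem_van.1 hn η hη.1
      rw [Pool.Agent.MP_05b4bd_ag.ev, map_pow, map_mul] at this
      exact (mul_eq_zero.1 (eq_zero_of_pow_eq_zero this)).resolve_left hη.2
  have hT : Irred T := by rw [Irred, e]; exact hq.1.1
  have hTZ : zcl T ⊆ Z := hZ.2 ⟨zcl_mono fun η hη => hη.1, hT.zcl⟩ fun ω hω =>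
    mem_zcl.2 fun R hR => mem_van.1 (hqp (e ▸ mem_van.2 hR)) ω hω
  obtain ⟨ω, hω⟩ := (irred_iff.1 hT).1
  exact ⟨y, ⟨ω, hTZ (subset_zcl T hω), hω.2⟩, fun η h1 h2 => hTZ (subset_zcl T ⟨h1, h2⟩)⟩

end Pool.Agent.MP_05b4bd_ag.WD
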