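import Pool.Agent.MP_05b4bd_ag.wd.Spec

/-! Row FLS: a centre with two flex lines lies in `FL`; exchange of the coordinates. -/

namespace Pool.Agent.MP_05b4bd_ag.WD

open MvPolynomial HC
open PC3 (Fm fm d1 DF sub2 pb)

namespace Fls

theorem co_sw (i j : ℕ) (u : Poly) : HC.co i j (sub2 (X 1) (X 0) u) = HC.co j i u := by
  induction u using MvPolynomial.induction_on generalizing i j with
  | C r =>
    have e : (C r : Poly) = C r * (X 0 ^ 0 * X 1 ^ 0) := by simp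
    rw [PC3.sub2_C, e, co_C_mul, co_C_mul, co_mon, co_mon]
    simp only [and_comm]
  | add p q hp hq => rw [map_add, co_add, co_add, hp, hq]
  | mul_X p k hp =>
    rw [map_mul, mul_comm, mul_comm p]
    fin_cases k
    · show HC.co i j (sub2 (X 1) (X 0) (X 0) * _) = HC.co j i (X 0 * p)
      rw [PC3.sub2_X0, co_X1_if, co_X0_if, hp]
    · show HC.co i j (sub2 (X 1) (X 0) (X 1) * _) = HC.co j i (X 1 * p)
      rw [PC3.sub2_X1, co_X1_if, co_X0_if, hp]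

theorem sw_sw (u : Poly) : sub2 (X 1) (X 0) (sub2 (X 1) (X 0) u) = u :=
  co_ext fun i j => by rw [co_sw, co_sw]

theorem split0 {P : Poly} (h4 : DL 4 P) (h : ∀ j < 3, HC.co 0 j P = 0) :
    ∃ (A : Poly) (a : ℂ), DL 3 A ∧ P = X 0 * A + C a * X 1 ^ 3 := by
  have e : ∀ i j, HC.co i j (P.divMonomial (Finsupp.single 0 1)) = HC.co (i + 1) j P := by
    intro i j
    rw [HC.co, coeff_divMonomial, HC.co, Finsupp.single_add, add_assoc, add_left_comm]
  refine ⟨P.divMonomial (Finsupp.single 0 1), HC.co 0 3 P, fun m hm => ?_, co_ext fun i j => ?_⟩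
  · rw [coeff_eq_co, e]
    rw [deg2] at hm
    exact co_of_DL h4 (by omega)
  · rw [co_add, co_C_mul, ← one_mul (X 1 ^ 3 : Poly), ← pow_zero (X 0 : Poly), co_mon]
    rcases i with _ | i
    · rw [co_X0', zero_add]
      rcases lt_trichotomy j 3 with hj | rfl | hj
      · rw [h j hj, if_neg (by omega), mul_zero]
      · simp
      · rw [co_of_DL h4 (by omega), if_neg (by omega), mul_zero]
    · rw [co_X0, e, if_neg (by omega), mul_zero, add_zero]

theorem split1 {Q : Poly} (h4 : DL 4 Q) (h : ∀ i < 3, HC.co i 0 Q = 0) :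
    ∃ (B : Poly) (b : ℂ), DL 3 B ∧ Q = X 1 * B + C b * X 0 ^ 3 := by
  obtain ⟨A, a, hA, e⟩ := split0 (PC3.sub2_DL (DL_X 1) (DL_X 0) h4)
    fun j hj => by rw [co_sw, h j hj]
  refine ⟨sub2 (X 1) (X 0) A, a, PC3.sub2_DL (DL_X 1) (DL_X 0) hA, ?_⟩
  rw [← sw_sw Q, e, map_add, map_mul, map_mul, map_pow, PC3.sub2_X0, PC3.sub2_X1, PC3.sub2_C]

theorem pb_sw (w : Form) :
    pb (X 1) (X 0) w = (-sub2 (X 1) (X 0) w.2, -sub2 (X 1) (X 0) w.1) :=
  Prod.ext (by simp [pb, fm]) (by simp [pb, fm])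

theorem mm_sw {u : Poly} (hu : u ∈ mm ℂ ^ 1) : -sub2 (X 1) (X 0) u ∈ mm ℂ ^ 1 := by
  have e : ∀ v : Poly, coeff 0 v = HC.co 0 0 v := fun v => coeff_eq_co 0 v
  rw [mem_mm_one, e] at hu ⊢
  rw [co_neg, co_sw, hu, neg_zero]

end Fls

open Fls

theorem flS : FlStmt := by
  intro w δ ⟨m1, m2, l1, l2⟩
  refine ⟨fun h4 q2 p2 s t hs ht => ?_, ?_, ?_⟩
  · obtain ⟨A, a, hA, eA⟩ := split0 h4.1 fun j hj => by
      obtain rfl | rfl | rfl : j = 0 ∨ j = 1 ∨ j = 2 := by omega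
      · exact co_of_mm m1 (by omega)
      · rw [← co_hc, show 0 + 1 = 1 from rfl, l1, co_C_mul, ← mul_one (X 0 : Poly), co_X0',
          mul_zero]
      · exact p2
    obtain ⟨B, b, hB, eB⟩ := split1 h4.2.neg fun j hj => by
      rw [co_neg, neg_eq_zero]
      obtain rfl | rfl | rfl : j = 0 ∨ j = 1 ∨ j = 2 := by omega
      · exact co_of_mm m2 (by omega)
      · rw [← co_hc, show 1 + 0 = 1 from rfl, l2, co_neg, co_C_mul, ← mul_one (X 1 : Poly), co_X1',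
          mul_zero, neg_zero]
      · exact q2
    refine ⟨a, b, s, t, sub2 s t A, sub2 s t B, DL_iff.1 hs, DL_iff.1 ht,
      DL_iff.1 (PC3.sub2_DL hs ht hA), DL_iff.1 (PC3.sub2_DL hs ht hB), ?_⟩
    have e1 := congrArg (sub2 s t) eA
    have e2 := congrArg (sub2 s t) eB
    rw [map_add, map_mul, map_mul, map_pow, PC3.sub2_X0, PC3.sub2_X1, PC3.sub2_C] at e1 e2
    rw [← e1, ← e2, pb, PC3.fm_eq, PC3.fm_eq, map_neg, neg_smul, sub_eq_add_neg]
    rfl
  · rw [pb_sw]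
    refine ⟨mm_sw m2, mm_sw m1, ?_, ?_⟩
    · rw [hc_neg, CR.hc_sub2 (isHomogeneous_X ℂ 1) (isHomogeneous_X ℂ 0), l2, map_neg, neg_neg,
        map_mul, PC3.sub2_C, PC3.sub2_X1]
    · rw [hc_neg, CR.hc_sub2 (isHomogeneous_X ℂ 1) (isHomogeneous_X ℂ 0), l1,
        map_mul, PC3.sub2_C, PC3.sub2_X0]
  · rw [pb_sw, co_neg, co_sw]

end Pool.Agent.MP_05b4bd_ag.WD
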