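import Pool.Agent.MP_05b4bd_ag.wd.Spec

/-! Weighted rescaling at a diagonal point. -/

namespace Pool.Agent.MP_05b4bd_ag.WD

open MvPolynomial HC
open PC3 (Fm fm d1 DF sub2 pb)

namespace Lim

/-- The weighted rescaling, divided by the `k`-th power of the parameter. -/
noncomputable def wc (k : ℕ) (a b : ℂ) (u : Poly) (ε : ℂ) : Poly :=
  ∑ m ∈ u.support, C (b * coeff m u * a ^ m 0 * ε ^ (m 0 + 2 * m 1 - k)) * monomial m 1

theorem PS_pow (n : ℕ) : PS fun τ => τ ^ n := ⟨Polynomial.X ^ n, by simp⟩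

theorem wc_PC (k : ℕ) (a b : ℂ) (u : Poly) : PC (wc k a b u) :=
  PC.sum _ fun _ _ => ((PS.const _).mul (PS_pow _)).toC.mul (PC.const _)

theorem co_wc (k : ℕ) (a b : ℂ) (u : Poly) (ε : ℂ) (i j : ℕ) :
    HC.co i j (wc k a b u ε) = b * HC.co i j u * a ^ i * ε ^ (i + 2 * j - k) := by
  classical
  rw [wc, HC.co, coeff_sum, Finset.sum_eq_single (Finsupp.single 0 i + Finsupp.single 1 j)]
  · rw [coeff_C_mul, coeff_monomial, if_pos rfl, HC.co]; simp
  · intro m _ hm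
    rw [coeff_C_mul, coeff_monomial, if_neg hm, mul_zero]
  · intro h
    rw [notMem_support_iff.1 h]; simp

theorem pb_diag (α β : ℂ) (w : Form) :
    pb (HC.lf α 0) (HC.lf 0 β) w = (C β * lin α 0 0 β w.1, C α * lin α 0 0 β w.2) := by
  refine Prod.ext ?_ ?_
  · simp only [pb, fm, Prod.fst_sub, PC3.sub2_lf, lf_y, map_zero]; ring
  · simp only [pb, fm, Prod.snd_sub, PC3.sub2_lf, lf_x, map_zero]; ring

theorem co_x (i j : ℕ) : HC.co i j (X 0 : Poly) = if 1 = i ∧ 0 = j then 1 else 0 := by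
  simpa using co_mon (A := ℂ) i j 1 0

theorem co_y (i j : ℕ) : HC.co i j (X 1 : Poly) = if 0 = i ∧ 1 = j then 1 else 0 := by
  simpa using co_mon (A := ℂ) i j 0 1

theorem co_xx (i j : ℕ) : HC.co i j (X 0 ^ 2 : Poly) = if 2 = i ∧ 0 = j then 1 else 0 := by
  simpa using co_mon (A := ℂ) i j 2 0

end Lim

open Lim

theorem limS : LimStmt := by
  intro w δ hδ hD hq
  obtain ⟨hP, hQ, hP1, hQ1⟩ := hD
  obtain ⟨a, ha⟩ := IsAlgClosed.exists_pow_nat_eq (-3 * δ / HC.co 2 0 w.2) (n := 2) (by norm_num)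
  have ha0 : a ≠ 0 := by
    rintro rfl
    exact div_ne_zero (mul_ne_zero (show (-3 : ℂ) ≠ 0 by norm_num) hδ) hq
      (by rw [← ha]; norm_num)
  have p00 : HC.co 0 0 w.1 = 0 := co_of_mm hP (by norm_num)
  have q00 : HC.co 0 0 w.2 = 0 := co_of_mm hQ (by norm_num)
  have p10 : HC.co 1 0 w.1 = δ := by
    rw [← co_hc 1 0, hP1, co_C_mul, Lim.co_x]; simp
  have q10 : HC.co 1 0 w.2 = 0 := by
    rw [← co_hc 1 0, hQ1, co_neg, co_C_mul, Lim.co_y]; simp
  have q01 : HC.co 0 1 w.2 = -δ := by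
    rw [← co_hc 0 1, hQ1, co_neg, co_C_mul, Lim.co_y]; simp
  have hγ : PF fun ε => ((wc 1 a (δ * a)⁻¹ w.1 ε, wc 2 a δ⁻¹ w.2 ε) : Form) :=
    ⟨wc_PC _ _ _ _, wc_PC _ _ _ _⟩
  have key := hγ.mem_zcl_of_ne (S := Orb w) fun ε hε => subset_zcl _
    ⟨HC.lf (ε * a) 0, HC.lf 0 (ε ^ 2), (ε ^ 3 * δ * a)⁻¹, PC3.DL_lf _ _, PC3.DL_lf _ _, by
      rw [pb_diag]
      refine Prod.ext (co_ext fun i j => ?_) (co_ext fun i j => ?_)
      · simp only [Prod.smul_fst, smul_eq_mul, co_C_mul, co_scale, co_wc]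
        rcases Nat.eq_zero_or_pos (i + 2 * j) with h | h
        · obtain rfl : i = 0 := by omega
          obtain rfl : j = 0 := by omega
          simp [p00]
        · have e : ε ^ i * (ε ^ 2) ^ j = ε ^ (i + 2 * j - 1) * ε := by
            rw [← pow_mul, ← pow_add, ← pow_succ]; congr 1; omega
          rw [mul_pow, mul_right_comm (ε ^ i), e]
          field_simp
      · simp only [Prod.smul_snd, smul_eq_mul, co_C_mul, co_scale, co_wc]
        rcases Nat.lt_or_ge (i + 2 * j) 2 with h | h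
        · obtain rfl : j = 0 := by omega
          obtain rfl | rfl : i = 0 ∨ i = 1 := by omega
          · simp [q00]
          · simp [q10]
        · have e : ε ^ i * (ε ^ 2) ^ j = ε ^ (i + 2 * j - 2) * ε ^ 2 := by
            rw [← pow_mul, ← pow_add, ← pow_add]; congr 1; omega
          rw [mul_pow, mul_right_comm (ε ^ i), e]
          field_simp⟩
  have e : dform (X 0 * X 1 + X 0 ^ 3) =
      ((wc 1 a (δ * a)⁻¹ w.1 0, wc 2 a δ⁻¹ w.2 0) : Form) := by
    have e1 : (dform (X 0 * X 1 + X 0 ^ 3)).1 = X 0 := by simp [dform]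
    have e2 : (dform (X 0 * X 1 + X 0 ^ 3)).2 = -(X 1 + C 3 * X 0 ^ 2) := by
      simp [dform, map_ofNat]
    refine Prod.ext (co_ext fun i j => ?_) (co_ext fun i j => ?_)
    · rw [e1, co_wc, Lim.co_x]
      rcases Nat.lt_or_ge (i + 2 * j) 2 with h | h
      · obtain rfl : j = 0 := by omega
        obtain rfl | rfl : i = 0 ∨ i = 1 := by omega
        · simp [p00]
        · rw [p10]; simp; field_simp
      · rw [if_neg (by omega), zero_pow (by omega), mul_zero]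
    · rw [e2, co_wc, co_neg, co_add, co_C_mul, Lim.co_y, Lim.co_xx]
      rcases Nat.lt_or_ge (i + 2 * j) 3 with h | h
      · obtain ⟨rfl, rfl⟩ | ⟨rfl, rfl⟩ | ⟨rfl, rfl⟩ | ⟨rfl, rfl⟩ :
          (i = 0 ∧ j = 0) ∨ (i = 1 ∧ j = 0) ∨ (i = 2 ∧ j = 0) ∨ (i = 0 ∧ j = 1) := by omega
        · simp [q00]
        · simp [q10]
        · rw [ha]; simp; field_simp
        · rw [q01]; simp; field_simp
      · rw [if_neg (by omega), if_neg (by omega), zero_pow (by omega)]; simp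
  rw [e]
  exact key

end Pool.Agent.MP_05b4bd_ag.WD
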