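import Pool.Agent.MP_05b4bd_ag.wd.Spec

/-! Rescaling at a centre, row NRM: the linear part is diagonalised. -/

namespace Pool.Agent.MP_05b4bd_ag.WD

open MvPolynomial HC
open PC3 (Fm fm d1 DF sub2 pb)

namespace Nrm

theorem hc1 (u : Poly) : hc 1 u = HC.lf (HC.co 1 0 u) (HC.co 0 1 u) := by
  rw [hom1_eq (hc_hom 1 u), co_hc 1 0, co_hc 0 1]

theorem trace {P Q : Poly} {p0 p1 q0 q1 : ℂ} (hP : P ∈ mm ℂ ^ 1) (hQ : Q ∈ mm ℂ ^ 1)
    (eP : hc 1 P = HC.lf p0 p1) (eQ : hc 1 Q = HC.lf q0 q1) (hd : p0 * q1 - p1 * q0 ≠ 0) (hI : FI P Q) :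
    q1 = -p0 := by
  by_contra hn
  have hT : p0 + q1 ≠ 0 := fun h => hn (by linear_combination h)
  obtain ⟨I, h2, h3, hv⟩ := hI 3
  have h4 := hc_vf_low (n := 1) hP hQ h2
  rw [hc_of_mm hv (by omega), eP, eQ] at h4
  have h5 := hom2_eq (hc_hom 2 I)
  generalize HC.co 2 0 (hc 2 I) = α, HC.co 1 1 (hc 2 I) = β, HC.co 0 2 (hc 2 I) = γ at h5
  change 0 = vf _ _ (hc 2 I) at h4
  rw [h5] at h4
  have ev : ∀ x y : ℂ, (p0 * x + p1 * y) * (2 * α * x + β * y) +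
      (q0 * x + q1 * y) * (β * x + 2 * γ * y) = 0 := fun x y => by
    have := congrArg (eval ![x, y]) h4
    simp [vf, HC.lf] at this
    linear_combination -this
  have e1 := ev 1 0
  have e2 := ev 0 1
  have e3 := ev 1 1
  have hm := mul_ne_zero hT hd
  have f1 : 2 * α * p0 + β * q0 = 0 := by linear_combination e1
  have f2 : β * p1 + 2 * γ * q1 = 0 := by linear_combination e2
  have f3 : β * (p0 + q1) + 2 * α * p1 + 2 * γ * q0 = 0 := by linear_combination e3 - e1 - e2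
  have b0 : β = 0 := (mul_eq_zero.1 (show β * ((p0 + q1) * (p0 * q1 - p1 * q0)) = 0 by
    linear_combination p0 * q1 * f3 - p1 * q1 * f1 - p0 * q0 * f2)).resolve_right hm
  subst b0
  have a0 : α = 0 := (mul_eq_zero.1 (show α * ((p0 + q1) * (p0 * q1 - p1 * q0)) = 0 by
    linear_combination ((p0 * q1 - p1 * q0) + q1 * q1) / 2 * f1 - q1 * q0 / 2 * f3 +
      q0 * q0 / 2 * f2)).resolve_right hm
  have c0 : γ = 0 := (mul_eq_zero.1 (show γ * ((p0 + q1) * (p0 * q1 - p1 * q0)) = 0 by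
    linear_combination ((p0 * q1 - p1 * q0) + p0 * p0) / 2 * f2 - p0 * p1 / 2 * f3 +
      p1 * p1 / 2 * f1)).resolve_right hm
  exact h3 (mm_succ h2 (by rw [h5, a0, c0]; simp))

theorem eig {p0 p1 q0 : ℂ} (hd : p0 * p0 + p1 * q0 ≠ 0) : ∃ a b c e δ : ℂ, δ ≠ 0 ∧
    a * e - b * c = 1 ∧ p0 * a + p1 * c = δ * a ∧ p0 * b + p1 * e = -(δ * b) ∧
    q0 * a + -p0 * c = δ * c ∧ q0 * b + -p0 * e = -(δ * e) := by
  by_cases hq : q0 = 0
  · have h0 : p0 ≠ 0 := fun h => hd (by rw [h, hq]; ring)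
    refine ⟨1, -p1 / (2 * p0), 0, 1, p0, h0, by ring, by ring, ?_, by rw [hq]; ring,
      by rw [hq]; ring⟩
    field_simp
    ring
  · obtain ⟨δ, hδ⟩ := IsAlgClosed.exists_eq_mul_self (p0 * p0 + p1 * q0)
    have h0 : δ ≠ 0 := fun h => hd (by rw [hδ, h, mul_zero])
    refine ⟨δ + p0, (p0 - δ) / (2 * δ * q0), q0, q0 / (2 * δ * q0), δ, h0, ?_,
      by linear_combination hδ, ?_, by ring, ?_⟩
    · field_simp
      ring
    · field_simp
      linear_combination hδ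
    · field_simp
      ring

theorem sub2_eq (p : Fin 2 → ℂ) (a b c e : ℂ) (u : Poly) :
    sub2 (C (p 0) + HC.lf a b) (C (p 1) + HC.lf c e) u = lin a b c e (tr p u) := by
  have : sub2 (C (p 0) + HC.lf a b) (C (p 1) + HC.lf c e) = (lin a b c e).comp (tr p) := by
    apply MvPolynomial.algHom_ext
    intro i
    fin_cases i
    · simp [sub2, tr, lin_X0, add_comm]
    · simp [sub2, tr, lin_X1, add_comm]
  exact DFunLike.congr_fun this u

theorem co10 (p : Fin 2 → ℂ) (u : Poly) : HC.co 1 0 (tr p u) = eval p (pderiv 0 u) := by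
  have := co_x 0 0 (tr p u)
  rw [tr_pderiv] at this
  simpa [HC.co, coeff_zero_tr] using this.symm

theorem co01 (p : Fin 2 → ℂ) (u : Poly) : HC.co 0 1 (tr p u) = eval p (pderiv 1 u) := by
  have := co_y 0 0 (tr p u)
  rw [tr_pderiv] at this
  simpa [HC.co, coeff_zero_tr] using this.symm

end Nrm

open Nrm in
theorem nrmS : NrmStmt := by
  intro ω p H
  have hI := fi_of_center H
  obtain ⟨z1, z2, hj, -⟩ := H
  have mP : tr p ω.1 ∈ mm ℂ ^ 1 := mem_mm_one.2 (by rw [coeff_zero_tr, z1])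
  have mQ : tr p ω.2 ∈ mm ℂ ^ 1 := mem_mm_one.2 (by rw [coeff_zero_tr, z2])
  have eP := hc1 (tr p ω.1)
  have eQ := hc1 (tr p ω.2)
  have hd : HC.co 1 0 (tr p ω.1) * HC.co 0 1 (tr p ω.2) -
      HC.co 0 1 (tr p ω.1) * HC.co 1 0 (tr p ω.2) ≠ 0 := by
    rw [co10, co10, co01, co01]
    simpa [jac] using hj
  have ht := trace mP mQ eP eQ hd hI
  rw [ht] at eQ hd
  generalize HC.co 1 0 (tr p ω.1) = p0, HC.co 0 1 (tr p ω.1) = p1, HC.co 1 0 (tr p ω.2) = q0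
    at eP eQ hd
  obtain ⟨a, b, c, e, δ, h0, h1, k1, k2, k3, k4⟩ := eig (p0 := p0) (p1 := p1) (q0 := q0)
    fun h => hd (by linear_combination -h)
  have sx : pderiv 0 (C (p 0) + HC.lf a b : Poly) = C a := by rw [map_add, pderiv_C, lf_x, zero_add]
  have sy : pderiv 1 (C (p 0) + HC.lf a b : Poly) = C b := by rw [map_add, pderiv_C, lf_y, zero_add]
  have tx : pderiv 0 (C (p 1) + HC.lf c e : Poly) = C c := by rw [map_add, pderiv_C, lf_x, zero_add]
  have ty : pderiv 1 (C (p 1) + HC.lf c e : Poly) = C e := by rw [map_add, pderiv_C, lf_y, zero_add]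
  have g1 : (pb (C (p 0) + HC.lf a b) (C (p 1) + HC.lf c e) ω).1 =
      C e * lin a b c e (tr p ω.1) - C b * lin a b c e (tr p ω.2) := by
    simp only [pb, fm, Prod.fst_sub, sub2_eq, sy, ty]
    ring
  have g2 : (pb (C (p 0) + HC.lf a b) (C (p 1) + HC.lf c e) ω).2 =
      C a * lin a b c e (tr p ω.2) - C c * lin a b c e (tr p ω.1) := by
    simp only [pb, fm, Prod.snd_sub, sub2_eq, sx, tx]
    ring
  have h1' : (C a * C e - C b * C c : Poly) = 1 := by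
    rw [← map_mul, ← map_mul, ← map_sub, h1, map_one]
  refine ⟨C (p 0) + HC.lf a b, C (p 1) + HC.lf c e, δ, ((DL_C _).mono (by omega)).add (PC3.DL_lf _ _),
    ((DL_C _).mono (by omega)).add (PC3.DL_lf _ _), by rw [br, sx, sy, tx, ty, h1'], h0, ?_⟩
  rw [g1, g2]
  refine ⟨sub_mem (Ideal.mul_mem_left _ _ (lin_mm mP)) (Ideal.mul_mem_left _ _ (lin_mm mQ)),
    sub_mem (Ideal.mul_mem_left _ _ (lin_mm mQ)) (Ideal.mul_mem_left _ _ (lin_mm mP)), ?_, ?_⟩
  · rw [hc_sub, hc_C_mul, hc_C_mul, hc_lin, hc_lin, eP, eQ, lin_lf, lin_lf, k1, k2, k3, k4]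
    simp only [HC.lf, map_mul, map_neg]
    linear_combination C δ * X 0 * h1'
  · rw [hc_sub, hc_C_mul, hc_C_mul, hc_lin, hc_lin, eP, eQ, lin_lf, lin_lf, k1, k2, k3, k4]
    simp only [HC.lf, map_mul, map_neg]
    linear_combination -(C δ * X 1 * h1')

end Pool.Agent.MP_05b4bd_ag.WD
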