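import Pool.Agent.MP_05b4bd_ag.wd.Spec

/-! Centres are preserved by affine changes of coordinates. -/

namespace Pool.Agent.MP_05b4bd_ag.WD

open MvPolynomial HC Topology
open PC3 (Fm fm d1 DF sub2 pb)

namespace Orc

theorem eval_sub2 (s t u : Poly) (z : Fin 2 → ℂ) :
    eval z (sub2 s t u) = eval ![eval z s, eval z t] u := by
  induction u using MvPolynomial.induction_on with
  | C r => simp [sub2]
  | add p q hp hq => rw [map_add, map_add, map_add, hp, hq]
  | mul_X p i hp =>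
    rw [map_mul, map_mul, map_mul, hp]
    fin_cases i <;> simp [sub2]

/-- The linear map with matrix `a b; c e`. -/
noncomputable def LM (a b c e : ℂ) : (Fin 2 → ℂ) →L[ℂ] Fin 2 → ℂ :=
  ContinuousLinearMap.pi
    ![a • ContinuousLinearMap.proj (R := ℂ) (φ := fun _ : Fin 2 => ℂ) 0 +
        b • ContinuousLinearMap.proj (R := ℂ) (φ := fun _ : Fin 2 => ℂ) 1,
      c • ContinuousLinearMap.proj (R := ℂ) (φ := fun _ : Fin 2 => ℂ) 0 +
        e • ContinuousLinearMap.proj (R := ℂ) (φ := fun _ : Fin 2 => ℂ) 1]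

theorem LM_apply (a b c e : ℂ) (v : Fin 2 → ℂ) :
    LM a b c e v = ![a * v 0 + b * v 1, c * v 0 + e * v 1] := by
  funext i
  fin_cases i <;> simp [LM]

theorem LM_bij {a b c e : ℂ} (h : a * e - b * c ≠ 0) : Function.Bijective (LM a b c e) := by
  refine Function.bijective_iff_has_inverse.2 ⟨fun v => ![(e * v 0 - b * v 1) / (a * e - b * c),
    (a * v 1 - c * v 0) / (a * e - b * c)], fun v => ?_, fun v => ?_⟩
  · funext i
    fin_cases i <;> simp [LM_apply] <;> rw [div_eq_iff h] <;> ring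
  · funext i
    fin_cases i <;> simp [LM_apply] <;> rw [← mul_div_assoc, ← mul_div_assoc, ← add_div,
      div_eq_iff h] <;> ring

end Orc

open Orc

theorem orcS : OrcStmt := by
  intro ω s t k p hs ht hb hk hp
  obtain ⟨h1, h2, h3, ψ, hψ, h0, hbij, hev⟩ := hp
  obtain ⟨a, ha⟩ : ∃ a, pderiv 0 s = C a := ⟨_, PC3.DL1_eq (hs.pderiv 0)⟩
  obtain ⟨b, hb'⟩ : ∃ a, pderiv 1 s = C a := ⟨_, PC3.DL1_eq (hs.pderiv 1)⟩
  obtain ⟨c, hc⟩ : ∃ a, pderiv 0 t = C a := ⟨_, PC3.DL1_eq (ht.pderiv 0)⟩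
  obtain ⟨e, he⟩ : ∃ a, pderiv 1 t = C a := ⟨_, PC3.DL1_eq (ht.pderiv 1)⟩
  have hbr : br s t = C (a * e - b * c) := by simp [br, ha, hb', hc, he]
  have hδ : a * e - b * c ≠ 0 := fun h => hb (by rw [hbr, h, map_zero])
  obtain ⟨s', t', -, -, -, -, hi, -⟩ := PC3.exists_inv' hs ht (r := (a * e - b * c)⁻¹)
    (by rw [hbr, ← map_mul, inv_mul_cancel₀ hδ, map_one])
  set φ : (Fin 2 → ℂ) → Fin 2 → ℂ := fun z => ![eval z s, eval z t] with hφ
  have dφ : ∀ z, HasFDerivAt φ (LM a b c e) z := fun z => by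
    refine hasFDerivAt_pi'.2 fun i => ?_
    have k1 := hasFDerivAt_eval s z
    have k2 := hasFDerivAt_eval t z
    rw [ha, hb', eval_C, eval_C] at k1
    rw [hc, he, eval_C, eval_C] at k2
    fin_cases i
    · exact k1
    · exact k2
  have aφ : ∀ z, AnalyticAt ℂ φ z := fun z => AnalyticAt.pi fun i => by
    fin_cases i
    · exact analyticAt_eval s z
    · exact analyticAt_eval t z
  set q : Fin 2 → ℂ := ![eval p s', eval p t'] with hq
  have e0 : φ q = p := by
    have k1 := eval_sub2 s' t' s p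
    have k2 := eval_sub2 s' t' t p
    have l1 := hi (X 0)
    have l2 := hi (X 1)
    rw [PC3.sub2_X0] at l1
    rw [PC3.sub2_X1] at l2
    rw [l1, eval_X] at k1
    rw [l2, eval_X] at k2
    funext i
    fin_cases i
    · exact k1.symm
    · exact k2.symm
  have ev : ∀ z u, eval z (sub2 s t u) = eval (φ z) u := fun z u => eval_sub2 s t u z
  have p1 : ((C k : Poly) • pb s t ω).1 = C k * (sub2 s t ω.1 * C e - sub2 s t ω.2 * C b) := by
    simp [pb, fm, hb', he]
  have p2 : ((C k : Poly) • pb s t ω).2 = C k * (sub2 s t ω.2 * C a - sub2 s t ω.1 * C c) := by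
    simp [pb, fm, ha, hc]
    exact Or.inl (by ring)
  have hψ' : AnalyticAt ℂ ψ (φ q) := e0 ▸ hψ
  refine ⟨q, ?_, ?_, ?_, ψ ∘ φ, hψ'.comp (aφ q), by rw [Function.comp, e0, h0], ?_, ?_⟩
  · simp [p1, ev, e0, h1, h2]
  · simp [p2, ev, e0, h1, h2]
  · have : eval q (jac ((C k : Poly) • pb s t ω)) =
        k ^ 2 * (a * e - b * c) ^ 2 * eval p (jac ω) := by
      rw [jac, p1, p2]
      simp [jac, PC3.sub2_d, ha, hb', hc, he, ev, e0]
      ring
    rw [this]
    exact mul_ne_zero (mul_ne_zero (pow_ne_zero _ hk) (pow_ne_zero _ hδ)) h3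
  · rw [(hψ'.differentiableAt.hasFDerivAt.comp q (dφ q)).fderiv, e0]
    exact hbij.comp (LM_bij hδ)
  · have tq : Filter.Tendsto φ (𝓝 q) (𝓝 p) := e0 ▸ (aφ q).continuousAt
    have ag : AnalyticAt ℂ (fun w => ψ w 0 ^ 2 + ψ w 1 ^ 2) p :=
      (((analyticAt_pi_iff.1 hψ) 0).pow 2).add (((analyticAt_pi_iff.1 hψ) 1).pow 2)
    filter_upwards [tq.eventually hev, tq.eventually ag.eventually_analyticAt] with z z1 z2
    have k1 := (z2.differentiableAt.hasFDerivAt.comp z (dφ z)).fderiv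
    have k2 : LM a b c e ![eval z ((C k : Poly) • pb s t ω).1, eval z ((C k : Poly) • pb s t ω).2] =
        (k * (a * e - b * c)) • ![eval (φ z) ω.1, eval (φ z) ω.2] := by
      rw [p1, p2, LM_apply]
      funext i
      fin_cases i <;> simp [ev] <;> ring
    refine (congrArg (fun l : (Fin 2 → ℂ) →L[ℂ] ℂ => l _) k1).trans ?_
    rw [ContinuousLinearMap.comp_apply, k2, map_smul, z1, smul_zero]

end Pool.Agent.MP_05b4bd_ag.WD
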