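import Pool.Agent.MP_05b4bd_ag.wd.Spec

/-! Affine changes of coordinates keep the foliations of degree `d`. -/

namespace Pool.Agent.MP_05b4bd_ag.WD

open MvPolynomial HC
open PC3 (Fm fm d1 DF sub2 pb)

namespace Orf

theorem df_iff (n : ℕ) (w : Form) :
    DF (n + 1) w ↔ max w.1.totalDegree w.2.totalDegree ≤ n := by
  rw [max_le_iff, ← DL_iff, ← DL_iff]; rfl

theorem df_T {s t : Poly} (hs : DL 2 s) (ht : DL 2 t) (c : ℂ) {n : ℕ} {w : Form} (hw : DF n w) :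
    DF n ((C c : Poly) • pb s t w) :=
  ⟨(hw.pb hs ht).1.C_mul c, (hw.pb hs ht).2.C_mul c⟩

end Orf

open Orf in
theorem orfS : OrfStmt := by
  intro d ω s t c hs ht hb hc hω
  have h1 : br s t = C (coeff 0 (br s t)) := PC3.DL1_eq (br_DL (a := 1) (e := 0) hs ht)
  have h2 : coeff 0 (br s t) ≠ 0 := fun e => hb (by rw [h1, e, map_zero])
  obtain ⟨s', t', hs', ht', -, k1, -, -, k2⟩ := PC3.exists_inv' hs ht
    (r := (coeff 0 (br s t))⁻¹) (by
      conv_lhs => rw [h1]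
      rw [coeff_zero_C, ← map_mul, inv_mul_cancel₀ h2, map_one])
  have e : ω = (C c⁻¹ : Poly) • pb s' t' ((C c : Poly) • pb s t ω) := by
    rw [PC3.pb_smul, PC3.sub2_C, k2, smul_smul, ← map_mul, inv_mul_cancel₀ hc, map_one, one_smul]
  refine ⟨fun g ⟨u, hu⟩ ⟨v, hv⟩ => ?_, ?_⟩
  · have e2 : (C c : Poly) • pb s t ω = g • ((u, v) : Form) := Prod.ext hu hv
    rw [e2, PC3.pb_smul, smul_comm] at e
    have hg : IsUnit (sub2 s' t' g) :=
      hω.1 ⟨_, congrArg Prod.fst e⟩ ⟨_, congrArg Prod.snd e⟩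
    rw [← k1 g]
    exact hg.map _
  · rw [← hω.2]
    refine eq_of_forall_ge_iff fun n => ?_
    rw [← df_iff, ← df_iff]
    refine ⟨fun h => ?_, df_T hs ht c⟩
    rw [e]
    exact df_T hs' ht' _ h

end Pool.Agent.MP_05b4bd_ag.WD
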