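import Pool.Agent.MP_05b4bd_ag.wd.Main
import Pool.Agent.MP_05b4bd_ag.wd.Den
import Pool.Agent.MP_05b4bd_ag.wd.Orf
import Pool.Agent.MP_05b4bd_ag.wd.Orc
import Pool.Agent.MP_05b4bd_ag.wd.Nrm
import Pool.Agent.MP_05b4bd_ag.wd.Lim
import Pool.Agent.MP_05b4bd_ag.wd.Fls

namespace Pool.Agent.MP_05b4bd_ag.WD

open MvPolynomial

theorem main_wd (Z : Set Form) (hZ : IsComponent (M 3) Z) :
    dform (X 0 * X 1 + X 0 ^ 3) ∈ Z ∨ Z ⊆ zcl FL :=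
  main denS orfS orcS nrmS limS flS Z hZ

end Pool.Agent.MP_05b4bd_ag.WD
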