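import Pool.Agent.MP_05b4bd_ag.wd.Spec

/-! Assembly from the block statements. -/

namespace Pool.Agent.MP_05b4bd_ag.WD

open MvPolynomial HC
open PC3 (Fm fm d1 DF sub2 pb)

theorem PF_pb {s t : ℂ → Poly} (hs : PC s) (ht : PC t) (ω : Form) :
    PF fun τ => pb (s τ) (t τ) ω :=
  have a := CR.PC_sub2 hs ht (PC.const ω.1)
  have b := CR.PC_sub2 hs ht (PC.const ω.2)
  ⟨(a.mul (ht.pderiv 1)).sub (b.mul (hs.pderiv 1)),
    (a.mul (ht.pderiv 0)).neg.sub (b.mul (hs.pderiv 0)).neg⟩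

theorem orb_sub (h1 : OrfStmt) (h2 : OrcStmt) {d : ℕ} {Z : Set Form} {y : Co} {ω : Form}
    (hZ : zcl Z ⊆ Z) (hy : ∀ η ∈ Cn d, Pool.Agent.MP_05b4bd_ag.ev y η ≠ 0 → η ∈ Z)
    (hω : ω ∈ Cn d) (h0 : Pool.Agent.MP_05b4bd_ag.ev y ω ≠ 0) : Orb ω ⊆ Z := by
  rintro _ ⟨s, t, c, hs, ht, rfl⟩
  have a := PC.line (X 0) s
  have b := PC.line (X 1) t
  have e := PS.line 1 c
  have g := PF.psmul e.toC (PF_pb a b ω)
  have k : PS fun τ => coeff 0 (br (X 0 + τ • (s - X 0)) (X 1 + τ • (t - X 1))) :=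
    (((a.pderiv 0).mul (b.pderiv 1)).sub ((a.pderiv 1).mul (b.pderiv 0))).coeff 0
  have f1 := k.finite (τ := 0) (by simp [br])
  have f2 := e.finite (τ := 0) (by simp)
  have f3 := (g.ev y).finite (τ := 0) (by simpa [PC3.pb_id] using h0)
  have dl : ∀ (τ : ℂ) (i : Fin 2) {u : Poly}, DL 2 u → DL 2 (X i + τ • (u - X i)) :=
    fun τ i u hu => by
      rw [smul_eq_C_mul]; exact (DL_X i).add ((hu.sub (DL_X i)).C_mul τ)
  have := g.mem_zcl (S := Z) (CR.inf_of_fin ((f1.union f2).union f3) fun τ hτ => by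
    simp only [Set.mem_union, Set.mem_ofPred_eq, not_or] at hτ
    obtain ⟨p, hp⟩ := hω.2
    have n : br (X 0 + τ • (s - X 0)) (X 1 + τ • (t - X 1)) ≠ 0 := fun z =>
      hτ.1.1 (by rw [z, coeff_zero])
    exact subset_zcl _ (hy _ ⟨h1 d ω _ _ _ (dl τ 0 hs) (dl τ 1 ht) n hτ.1.2 hω.1,
      h2 ω _ _ _ p (dl τ 0 hs) (dl τ 1 ht) n hτ.1.2 hp⟩ hτ.2)) 1
  exact hZ (by simpa using this)

theorem orb_pb {s t : Poly} (hs : DL 2 s) (ht : DL 2 t) (ω : Form) : Orb (pb s t ω) ⊆ Orb ω := by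
  rintro _ ⟨s', t', c, hs', ht', rfl⟩
  exact ⟨_, _, c, PC3.sub2_DL hs' ht' hs, PC3.sub2_DL hs' ht' ht, by rw [PC3.pb_pb]⟩

theorem main (den : DenStmt) (h1 : OrfStmt) (h2 : OrcStmt) (nrm : NrmStmt) (lim : LimStmt)
    (fl : FlStmt) (Z : Set Form) (hZ : IsComponent (M 3) Z) :
    dform (X 0 * X 1 + X 0 ^ 3) ∈ Z ∨ Z ⊆ zcl FL := by
  refine or_iff_not_imp_right.2 fun hn => ?_
  have hV : Cn 3 ⊆ V 3 := fun ω h => ⟨h.1.2 ▸ le_max_left _ _, h.1.2 ▸ le_max_right _ _⟩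
  obtain ⟨cl, y, ⟨ω1, m1, y1⟩, hy⟩ := den 3 (Cn 3) Z hV hZ
  obtain ⟨ω0, m0, n0⟩ := Set.not_subset.1 hn
  rw [mem_zcl] at n0
  push Not at n0
  obtain ⟨T, hT, t0⟩ := n0
  obtain ⟨ω, hω, k⟩ : ∃ ω ∈ Cn 3, Pool.Agent.MP_05b4bd_ag.ev (y * T) ω ≠ 0 := by
    by_contra hc
    push Not at hc
    rcases (irred_iff.1 hZ.1.2).2 y T fun η hη => by
      rw [← ev_mul]; exact mem_zcl.1 (hZ.1.1 hη) _ hc with e | e
    exacts [y1 (e _ m1), t0 (e _ m0)]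
  rw [ev_mul] at k
  have o := orb_sub h1 h2 cl hy hω (left_ne_zero_of_mul k)
  obtain ⟨p, hp⟩ := hω.2
  obtain ⟨s, t, δ, hs, ht, b1, hδ, dg⟩ := nrm ω p hp
  obtain ⟨f1, f2, f3⟩ := fl _ δ dg
  by_cases c1 : HC.co 2 0 (pb s t ω).2 = 0
  · by_cases c2 : HC.co 0 2 (pb s t ω).1 = 0
    · obtain ⟨s', t', hs', ht', -, -, -, -, e⟩ := PC3.exists_inv hs ht b1
      have := f1 (PC3.DF.pb hs ht ⟨DL_iff.2 (hV hω).1, DL_iff.2 (hV hω).2⟩) c1 c2 s' t' hs' ht'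
      rw [e] at this
      exact absurd (hT _ this) (right_ne_zero_of_mul k)
    · exact cl (zcl_mono (((orb_pb (DL_X 1) (DL_X 0) _).trans (orb_pb hs ht ω)).trans o)
        (lim _ δ hδ f2 (by rw [f3]; exact neg_ne_zero.2 c2)))
  · exact cl (zcl_mono ((orb_pb hs ht ω).trans o) (lim _ δ hδ dg c1))

end Pool.Agent.MP_05b4bd_ag.WD
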