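import Pool.Agent.MP_05b4bd_ag.wd.Defs
import Pool.Agent.MP_05b4bd_ag.cr.Bas

/-! Rescaling at a centre: block statements. -/

namespace Pool.Agent.MP_05b4bd_ag.WD

open MvPolynomial HC
open PC3 (Fm fm d1 DF sub2 pb)

/-- Foliations of degree `d` with a centre. -/
def Cn (d : ℕ) : Set Form := {ω | ω ∈ Fol d ∧ ∃ p, IsCenter ω p}

/-- Multiples of affine pull-backs. -/
def Orb (ω : Form) : Set Form :=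
  {η | ∃ (s t : Poly) (c : ℂ), DL 2 s ∧ DL 2 t ∧ η = (C c : Poly) • pb s t ω}

def DenStmt : Prop := ∀ (d : ℕ) (S Z : Set Form), S ⊆ V d → IsComponent (zcl S) Z →
  zcl Z ⊆ Z ∧ ∃ y : Co, (∃ ω ∈ Z, Pool.Agent.MP_05b4bd_ag.ev y ω ≠ 0) ∧
    ∀ η ∈ S, Pool.Agent.MP_05b4bd_ag.ev y η ≠ 0 → η ∈ Z

def OrfStmt : Prop := ∀ (d : ℕ) (ω : Form) (s t : Poly) (c : ℂ), DL 2 s → DL 2 t → br s t ≠ 0 →
  c ≠ 0 → ω ∈ Fol d → (C c : Poly) • pb s t ω ∈ Fol d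

def OrcStmt : Prop := ∀ (ω : Form) (s t : Poly) (c : ℂ) (p : Fin 2 → ℂ), DL 2 s → DL 2 t →
  br s t ≠ 0 → c ≠ 0 → IsCenter ω p → ∃ q, IsCenter ((C c : Poly) • pb s t ω) q

def NrmStmt : Prop := ∀ (ω : Form) (p : Fin 2 → ℂ), IsCenter ω p → ∃ (s t : Poly) (δ : ℂ),
  DL 2 s ∧ DL 2 t ∧ br s t = 1 ∧ δ ≠ 0 ∧ Diag δ (pb s t ω).1 (pb s t ω).2

def LimStmt : Prop := ∀ (w : Form) (δ : ℂ), δ ≠ 0 → Diag δ w.1 w.2 → HC.co 2 0 w.2 ≠ 0 →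
  dform (X 0 * X 1 + X 0 ^ 3) ∈ zcl (Orb w)

def FlStmt : Prop := ∀ (w : Form) (δ : ℂ), Diag δ w.1 w.2 →
  (DF 4 w → HC.co 2 0 w.2 = 0 → HC.co 0 2 w.1 = 0 → ∀ s t : Poly, DL 2 s → DL 2 t →
    pb s t w ∈ FL) ∧
  Diag δ (pb (X 1) (X 0) w).1 (pb (X 1) (X 0) w).2 ∧
    HC.co 2 0 (pb (X 1) (X 0) w).2 = -HC.co 0 2 w.1

end Pool.Agent.MP_05b4bd_ag.WD
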